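import Mathlib
import Pool.Agent.TH784.WbMain

/-!
Fremlin's question, answered in ZFC: some probability on the weakly Borel subsets of `ℓ^∞` has no
extension to the norm Borel subsets.

Sketch. Let the index set be divided into finite blocks `I_k`. Given a level `t ∈ [0, 1]` let
`y ⊆ ⋃ I_k` be random: in block `k` a random set of `N_k` independent uniform points of `I_k`, with
`N_k` uniform on `{0, ..., 2 ^ ⌊k² t⌋ - 1}`. Let `λ_t` be the law of `y`, and `λ` the law of `(t, y)`,
`t` uniform on `[0, 1]`, carried by `[0, 1] × {0, 1}^ℕ ⊆ ℓ^∞`.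
* Two typical sets are almost disjoint, so a finitely additive measure `θ ≥ 0` vanishing on finite
  sets has `θ(y) = 0` for almost every `y`.
* Absorption: if `x` is typical of level `s < t` then `y ↦ y ∪ (x \ m)` changes `λ_t` by little
  for large `m`.
* Call `W` free-open if with `x` it contains `{y : θ(x Δ y) < 1}` for some such `θ`. Key lemma: if
  `W_0, W_1, ...` are free-open and non-null at the levels below `t`, and `B` is closed with
  `λ_t(B) > 0`, then `B ∩ ⋂ W_n ≠ ∅`. The point is `y ∪ ⋃_n (x_{σ|n} \ m_{σ|n})` with
  `x_ν ∈ W_{|ν|}` chosen along the binary tree and a suitable branch `σ`.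
* Hence declaring `W = {level > t_W}`, where `t_W` is the first level at which `W` is
  non-null, gives a proper sigma-ideal, so `λ` extends to a measure `μ` on a sigma-algebra that
  contains the weakly Borel sets; a free-open set is `μ`-null iff it is null for the law of `y`.
* A norm Borel extension would give a measure on all subsets of `{0, 1}^ℕ` with the same null
  free-open sets. Taking a minimal well-ordered family of null free-open sets with non-null union,
  Fubini's theorem gives a contradiction.
-/

set_option autoImplicit false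

namespace Pool.Agent.Results.MP_2ac9e4_an.WeakBorelNoExtension

open MeasureTheory Set
open scoped ENNReal

/-- The sigma-algebra `Bo(X, w)` on a real normed space `X`, generated by the weakly open subsets of
`X`, that is, by the sets `U` whose image under the identity map `toWeakSpace` from `X` to the space
`WeakSpace ℝ X` (`X` with its weak topology) is open. -/
@[instance_reducible]
def weakBorel (X : Type) [NormedAddCommGroup X] [NormedSpace ℝ X] : MeasurableSpace X :=
  MeasurableSpace.generateFrom {U : Set X | IsOpen (toWeakSpace ℝ X '' U)}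

/-- Some probability `μ` on the sigma-algebra `Bo(X, w)` generated by the weakly open subsets of `X`
has no extension to the norm Borel sets of `X`: no measure `ν` on the norm Borel sets satisfies
`ν E = μ E` for every `E` in `Bo(X, w)`. -/
def HasNonextendableProb (X : Type) [NormedAddCommGroup X] [NormedSpace ℝ X] : Prop :=
  ∃ μ : @Measure X (weakBorel X), μ univ = 1 ∧
    ∀ ν : @Measure X (borel X), ¬ ∀ E : Set X, MeasurableSet[weakBorel X] E → ν E = μ E

/-- There is a probability `μ` on the sigma-algebra `Bo(ℓ^∞, w)` generated by the weakly open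
subsets of `ℓ^∞` such that no measure on the norm Borel sets of `ℓ^∞` agrees with `μ` on
`Bo(ℓ^∞, w)`. -/
theorem result : HasNonextendableProb (lp (fun _ : ℕ => ℝ) ∞) := by
  unfold HasNonextendableProb
  set X := (lp (fun _ : ℕ => ℝ) ∞)
  have hsymm : @Measurable (WeakSpace ℝ X) X (borel _) (weakBorel X)
      (toWeakSpace ℝ X).symm := by
    refine @measurable_generateFrom (WeakSpace ℝ X) X (borel _) _ _ ?_
    intro U hU
    have h : ⇑(toWeakSpace ℝ X).symm ⁻¹' U = toWeakSpace ℝ X '' U :=
      ((toWeakSpace ℝ X).toEquiv.image_eq_preimage_symm U).symm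
    rw [h]
    exact Pool.Agent.TH784.WB.open_meas hU
  have hto : @Measurable X (WeakSpace ℝ X) (weakBorel X) (borel _) (toWeakSpace ℝ X) := by
    refine @measurable_generateFrom X (WeakSpace ℝ X) (weakBorel X) _ _ ?_
    intro V hV
    refine MeasurableSpace.measurableSet_generateFrom ?_
    change IsOpen (toWeakSpace ℝ X '' (toWeakSpace ℝ X ⁻¹' V))
    rw [image_preimage_eq V (toWeakSpace ℝ X).surjective]
    exact hV
  have hmap : ∀ E : Set X, MeasurableSet[weakBorel X] E →
      @Measure.map _ _ (borel _) (weakBorel X) (toWeakSpace ℝ X).symm Pool.Agent.TH784.WB.muW E =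
        Pool.Agent.TH784.WB.muW ((toWeakSpace ℝ X).symm ⁻¹' E) := by
    intro E hE
    exact @Measure.map_apply _ _ (borel _) (weakBorel X) _ _ hsymm _ hE
  refine ⟨@Measure.map _ _ (borel _) (weakBorel X) (toWeakSpace ℝ X).symm
    Pool.Agent.TH784.WB.muW, ?_, ?_⟩
  · rw [hmap univ (@MeasurableSet.univ _ (weakBorel X)), preimage_univ]
    exact Pool.Agent.TH784.WB.muW_univ
  intro ν hν
  have huniv : ν univ = 1 := by
    rw [hν univ (@MeasurableSet.univ _ (weakBorel X)),
      hmap univ (@MeasurableSet.univ _ (weakBorel X)), preimage_univ]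
    exact Pool.Agent.TH784.WB.muW_univ
  refine Pool.Agent.TH784.WB.no_ext ν ?_ ?_
  · exact @IsProbabilityMeasure.mk _ (borel _) ν huniv
  intro F hF
  have hE : MeasurableSet[weakBorel X] ((toWeakSpace ℝ X) ⁻¹' F) := hto hF
  rw [hν _ hE, hmap _ hE]
  congr 1

end Pool.Agent.Results.MP_2ac9e4_an.WeakBorelNoExtension
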